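import Pool.Agent.Q318.OSR.Form

set_option autoImplicit false

/-!
# The positive fragment of the theory of one-step rewriting can be undecidable

The definitions (signatures, terms, rules, one-step rewriting of ground terms, positive formulas and
their truth) are in `Pool.Agent.Q318.OSR.Defs`.
-/

namespace Pool.Agent.Results.MP_342291_lc.PositiveFragment

open Pool.Agent.Q318.OSR

/-- **Theorem.** There are a finite signature `S` with a constant and a finite rewrite system `R`
over `S` such that no algorithm decides which positive sentences are true in the structure of the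
ground terms over `S` with the relation of one-step rewriting by `R`. -/
theorem result : ∃ (S : Signature) (_ : Finite S.Sym) (R : List (Term S × Term S)),
    (∃ f : S.Sym, S.ar f = 0) ∧ (∀ ρ ∈ R, IsRule ρ) ∧
    ¬ ∃ D : ℕ → Prop, ComputablePred D ∧
      ∀ φ : Pos, φ.IsSentence → (D φ.code ↔ φ.IsTrue R) := by
  obtain ⟨K, N, hN, hdet, hK⟩ := exists_K
  refine ⟨Sg, inferInstanceAs (Finite Sy), RR K, ⟨Sy.z, rfl⟩, fun ρ hρ => isRule_RR hρ, ?_⟩
  rintro ⟨D, hD, h⟩
  apply hK
  have h1 : ComputablePred fun n => D (fPhi (N n)).code :=
    ComputablePred.computable_of_manyOneReducible (q := D)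
      ⟨fun n => (fPhi (N n)).code, prim_fPhi.to_comp.comp hN, fun n => Iff.rfl⟩ hD
  refine (ComputablePred.not h1).of_eq fun n => ?_
  rw [h _ (fPhi_sentence _), fPhi_true hdet, not_not]

end Pool.Agent.Results.MP_342291_lc.PositiveFragment
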